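import Mathlib.Topology.MetricSpace.Gluing
import Pool.Agent.Q154.CircleGH

set_option autoImplicit false

/-!
# The optimal threshold for `d_GH(X, S¹) = d_H(X, S¹)` is `π / 3`
-/

open Real Metric Set

namespace Pool.Agent.Results.MP_124474_gt.OptimalThreshold

/-- The circle of length `2π` with its geodesic metric. -/
abbrev Circ := AddCircle (2 * π)

/-- The Hausdorff distance from `X` to the circle, `sup_p inf_{x ∈ X} d(p, x)`. -/
noncomputable def dH (X : Set Circ) : ℝ := ⨆ p : Circ, infDist p X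

/-- The Gromov–Hausdorff distance between `X` and the circle: the infimum, over all metric spaces
`Z` and all isometric embeddings of `X` and of the circle into `Z`, of the Hausdorff distance
between the two images. -/
noncomputable def dGH (X : Set Circ) : ℝ :=
  sInf {r : ℝ | ∃ (Z : Type) (_ : MetricSpace Z) (f : X → Z) (g : Circ → Z),
    Isometry f ∧ Isometry g ∧ r = hausdorffDist (range f) (range g)}

theorem dist_le (p q : Circ) : dist p q ≤ π := by
  have h := AddCircle.norm_le_half_period (2 * π) (x := p - q) (by positivity)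
  rw [abs_of_pos (by positivity : (0 : ℝ) < 2 * π)] at h
  rw [dist_eq_norm]
  linarith

theorem bdd_infDist {X : Set Circ} (hX : X.Nonempty) :
    BddAbove (range fun p : Circ => infDist p X) := by
  obtain ⟨x, hx⟩ := hX
  refine ⟨π, ?_⟩
  rintro _ ⟨p, rfl⟩
  exact (infDist_le_dist_of_mem hx).trans (dist_le _ _)

theorem bddBelow_set (X : Set Circ) :
    BddBelow {r : ℝ | ∃ (Z : Type) (_ : MetricSpace Z) (f : X → Z) (g : Circ → Z),
      Isometry f ∧ Isometry g ∧ r = hausdorffDist (range f) (range g)} := by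
  refine ⟨0, ?_⟩
  rintro r ⟨Z, _, f, g, _, _, rfl⟩
  exact hausdorffDist_nonneg

/-- `d_GH ≤ d_H`. -/
theorem dGH_le_dH {X : Set Circ} (hX : X.Nonempty) : dGH X ≤ dH X := by
  have h0 : 0 ≤ dH X := Real.iSup_nonneg fun p => infDist_nonneg
  refine (csInf_le (bddBelow_set X)
    ⟨Circ, inferInstance, Subtype.val, id, isometry_subtype_coe, isometry_id, rfl⟩).trans ?_
  rw [Subtype.range_coe, range_id]
  refine hausdorffDist_le_of_infDist h0 ?_ ?_
  · intro x _
    rw [infDist_zero_of_mem (mem_univ x)]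
    exact h0
  · intro x _
    exact le_ciSup (bdd_infDist hX) x

/-- The set of values is nonempty. -/
theorem nonempty_set (X : Set Circ) :
    {r : ℝ | ∃ (Z : Type) (_ : MetricSpace Z) (f : X → Z) (g : Circ → Z),
      Isometry f ∧ Isometry g ∧ r = hausdorffDist (range f) (range g)}.Nonempty :=
  ⟨_, Circ, inferInstance, Subtype.val, id, isometry_subtype_coe, isometry_id, rfl⟩

/-- The lower bound. -/
theorem lower {X : Set Circ} (hX : X.Nonempty) : min (dH X) (π / 3) ≤ dGH X := by
  refine le_csInf (nonempty_set X) ?_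
  rintro r ⟨Z, _, f, g, hf, hg, rfl⟩
  by_contra hcon
  push Not at hcon
  obtain ⟨ρ, hρ1, hρ2⟩ := exists_between hcon
  have hρ0 : 0 ≤ ρ := hausdorffDist_nonneg.trans hρ1.le
  obtain ⟨x0, hx0⟩ := hX
  have hbf : Bornology.IsBounded (range f) := by
    rw [isBounded_iff]
    refine ⟨π, ?_⟩
    rintro _ ⟨a, rfl⟩ _ ⟨b, rfl⟩
    rw [hf.dist_eq]
    exact dist_le _ _
  have hbg : Bornology.IsBounded (range g) := by
    rw [isBounded_iff]
    refine ⟨π, ?_⟩
    rintro _ ⟨a, rfl⟩ _ ⟨b, rfl⟩
    rw [hg.dist_eq]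
    exact dist_le _ _
  have hfin := hausdorffEDist_ne_top_of_nonempty_of_bounded
    (⟨f ⟨x0, hx0⟩, mem_range_self _⟩ : (range f).Nonempty)
    (⟨g 0, mem_range_self _⟩ : (range g).Nonempty) hbf hbg
  have hex : ∀ p : Circ, ∃ x : X, dist (f x) (g p) < ρ := by
    intro p
    obtain ⟨_, ⟨x, rfl⟩, hx⟩ :=
      exists_dist_lt_of_hausdorffDist_lt' (mem_range_self p) hρ1 hfin
    exact ⟨x, hx⟩
  choose x hx using hex
  have hρH : ρ < dH X := hρ2.trans_le (min_le_left _ _)
  have hρπ : ρ < π / 3 := hρ2.trans_le (min_le_right _ _)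
  obtain ⟨q, hq⟩ := exists_lt_of_lt_ciSup hρH
  have key := Q154.CircleGH.distortion_bound (X := X) (q := q) (r := infDist q X) (D := 2 * ρ)
    (by linarith) (by linarith) (fun x hx => infDist_le_dist_of_mem hx)
    (fun p => (x p : Circ)) (fun p => (x p).2) (by
      intro p p'
      have h1 := hx p
      have h2 := hx p'
      have h3 : dist (x p : Circ) (x p') = dist (f (x p)) (f (x p')) := (hf.dist_eq _ _).symm
      have h4 : dist p p' = dist (g p) (g p') := (hg.dist_eq _ _).symm
      rw [h3, h4, abs_le]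
      have h5 := dist_triangle4 (f (x p)) (g p) (g p') (f (x p'))
      have h6 := dist_triangle4 (g p) (f (x p)) (f (x p')) (g p')
      rw [dist_comm (g p') (f (x p'))] at h5
      rw [dist_comm (g p) (f (x p))] at h6
      constructor <;> linarith)
  linarith

/-- The closed arc consisting of the points at distance at least `h` from the point `π`. -/
def arc (h : ℝ) : Set Circ := {x | ∃ y : ℝ, |y| ≤ π - h ∧ (y : Circ) = x}

theorem arc_nonempty {h : ℝ} (h1 : h ≤ π) : (arc h).Nonempty :=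
  ⟨0, 0, by rw [abs_zero]; linarith, by simp⟩

theorem dH_arc {h : ℝ} (h0 : 0 ≤ h) (h1 : h ≤ π) : dH (arc h) = h := by
  have hpi := Real.pi_pos
  have : Nonempty Circ := ⟨0⟩
  apply le_antisymm
  · refine ciSup_le fun p => ?_
    obtain ⟨t, rfl, _, ht⟩ := Q154.CircleGH.exists_rep p
    obtain ⟨ht1, ht2⟩ := abs_le.1 ht
    obtain ⟨y, hy1, hy2⟩ : ∃ y : ℝ, |y| ≤ π - h ∧ |t - y| ≤ h := by
      rcases le_total t (-(π - h)) with h2 | h2
      · refine ⟨-(π - h), ?_, ?_⟩
        · rw [abs_neg, abs_of_nonneg (by linarith)]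
        · rw [abs_le]; constructor <;> linarith
      · rcases le_total t (π - h) with h3 | h3
        · exact ⟨t, abs_le.2 ⟨h2, h3⟩, by simpa using h0⟩
        · refine ⟨π - h, ?_, ?_⟩
          · rw [abs_of_nonneg (by linarith)]
          · rw [abs_le]; constructor <;> linarith
    refine (infDist_le_dist_of_mem (show (y : Circ) ∈ arc h from ⟨y, hy1, rfl⟩)).trans ?_
    rw [dist_eq_norm, ← AddCircle.coe_sub, Q154.CircleGH.norm_abs_of_le (hy2.trans h1)]
    exact hy2
  · refine le_trans ?_ (le_ciSup (bdd_infDist (arc_nonempty h1)) ((π : ℝ) : Circ))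
    rw [le_infDist (arc_nonempty h1)]
    rintro _ ⟨y, hy, rfl⟩
    obtain ⟨hy1, hy2⟩ := abs_le.1 hy
    rw [dist_eq_norm, ← AddCircle.coe_sub]
    have e : |π - y| = π - y := abs_of_nonneg (by linarith)
    rcases Q154.CircleGH.norm_cases (t := π - y) (by rw [e]; linarith) with ⟨_, h4⟩ | ⟨_, h4⟩
    · rw [h4, e]; linarith
    · rw [h4, e]; linarith

/-- The upper bound for closed arcs. -/
theorem dGH_arc {h : ℝ} (h0 : π / 3 ≤ h) (h1 : h ≤ 2 * π / 3) : dGH (arc h) ≤ π / 3 := by
  have hpi := Real.pi_pos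
  let T := {y : ℝ // |y| ≤ π - h}
  have : Nonempty T := ⟨⟨0, by rw [abs_zero]; linarith⟩⟩
  let Φ : T → arc h := fun y => ⟨((y : ℝ) : Circ), y, y.2, rfl⟩
  let Ψ : T → Circ := fun y => ((Q154.CircleGH.fold y : ℝ) : Circ)
  have H : ∀ p q, |dist (Φ p) (Φ q) - dist (Ψ p) (Ψ q)| ≤ 2 * (π / 3) := by
    intro p q
    have h2 := Q154.CircleGH.fold_dist (y := p) (z := q) (by have := p.2; linarith)
      (by have := q.2; linarith)
    have e1 : dist (Φ p) (Φ q) = ‖((p - q : ℝ) : Circ)‖ := by
      rw [Subtype.dist_eq, dist_eq_norm, ← AddCircle.coe_sub]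
    have e2 : dist (Ψ p) (Ψ q) =
        ‖((Q154.CircleGH.fold p - Q154.CircleGH.fold q : ℝ) : Circ)‖ := by
      rw [dist_eq_norm, ← AddCircle.coe_sub]
    rw [e1, e2, abs_sub_comm]
    linarith
  have hε : 0 < π / 3 := by positivity
  let M : MetricSpace (arc h ⊕ Circ) := glueMetricApprox Φ Ψ (π / 3) hε H
  refine (csInf_le (bddBelow_set _) ⟨arc h ⊕ Circ, M, Sum.inl, Sum.inr, ?_, ?_, rfl⟩).trans ?_
  · exact Isometry.of_dist_eq fun x y => rfl
  · exact Isometry.of_dist_eq fun x y => rfl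
  · refine hausdorffDist_le_of_mem_dist hε.le ?_ ?_
    · rintro _ ⟨⟨x, y, hy, rfl⟩, rfl⟩
      refine ⟨Sum.inr (Ψ ⟨y, hy⟩), mem_range_self _, ?_⟩
      exact (glueDist_glued_points Φ Ψ (π / 3) ⟨y, hy⟩).le
    · rintro _ ⟨p, rfl⟩
      obtain ⟨t, rfl, _, ht⟩ := Q154.CircleGH.exists_rep p
      have ht' : |t / 3| ≤ π / 3 := by
        rw [abs_div, abs_of_pos (by norm_num : (0 : ℝ) < 3)]
        linarith
      have hy : |t / 3| ≤ π - h := by linarith
      refine ⟨Sum.inl (Φ ⟨t / 3, hy⟩), mem_range_self _, ?_⟩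
      have e : ((t : ℝ) : Circ) = Ψ ⟨t / 3, hy⟩ := by
        simp only [Ψ, Q154.CircleGH.fold]
        rw [if_pos ht']
        congr 1
        ring
      rw [e, dist_comm]
      exact (glueDist_glued_points Φ Ψ (π / 3) ⟨t / 3, hy⟩).le

/-- Equality of the Gromov–Hausdorff and the Hausdorff distance to the circle holds for all
subsets with `d_H ≤ π / 3`, and `π / 3` is the largest constant with this property. -/
theorem result :
    (∀ X : Set Circ, X.Nonempty →
      min (dH X) (π / 3) ≤ dGH X ∧ (dH X ≤ π / 3 → dGH X = dH X)) ∧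
    (∀ h : ℝ, π / 3 < h → h ≤ 2 * π / 3 →
      ∃ X : Set Circ, X.Nonempty ∧ dH X = h ∧ dGH X = π / 3) := by
  refine ⟨fun X hX => ⟨lower hX, fun h => ?_⟩, fun h h1 h2 => ?_⟩
  · refine le_antisymm (dGH_le_dH hX) ?_
    have := lower hX
    rwa [min_eq_left h] at this
  · have hpi := Real.pi_pos
    have hne : (arc h).Nonempty := arc_nonempty (by linarith)
    have e : dH (arc h) = h := dH_arc (by linarith) (by linarith)
    refine ⟨arc h, hne, e, le_antisymm (dGH_arc h1.le h2) ?_⟩
    have := lower hne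
    rwa [e, min_eq_right h1.le] at this

end Pool.Agent.Results.MP_124474_gt.OptimalThreshold
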